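import Pool.Agent.H31.SX.TargetsR
import Pool.Agent.H31.SX.TargetsD
import Pool.Agent.H29.THC.CQ
import Pool.Agent.H81.THC.CS

/-!
# (CD) the correlations of a primitive character
-/

set_option autoImplicit false

open NumberField Complex
open scoped nonZeroDivisors

namespace Pool.Agent.H16.SWX

open Pool.Agent.H25.HK Pool.Agent.H23.LB Pool.Agent.H23.LC
open Pool.Agent.H28.RC (Rep ft idl)
open Pool.Agent.H29.TC (Gn LC cq dvs AC MC)
open Pool.Agent.H31.SW (dif)
open Pool.Agent.H31.SX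
open Pool.Agent.H81.THC (fi_mono fi_le)

section ideals

variable {K : Type} [Field K] [NumberField K]

lemma sum_eq_of_gcd {k e : Ideal (𝓞 K)} {M : FI K} {x₀ δ : K} {a : 𝓞 K} (hx₀ : Gn k M x₀)
    (hg : Gcd k M δ e) (ha : δ - (a : K) * x₀ ∈ (k : FI K) * M) :
    a ∈ e ∧ e = Ideal.span {a} ⊔ k := by
  have hae : ∀ e' : Ideal (𝓞 K), k ≤ e' → (δ ∈ (e' : FI K) * M ↔ a ∈ e') := by
    intro e' he'
    rw [← hx₀.iff a e' he']
    have h1 := fi_mono he' M ha
    constructor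
    · intro h
      have h2 := Submodule.sub_mem _ h h1
      have e1 : δ - (δ - (a : K) * x₀) = (a : K) * x₀ := by ring
      rw [e1] at h2
      exact h2
    · intro h
      have h2 := Submodule.add_mem _ h1 h
      have e1 : δ - (a : K) * x₀ + (a : K) * x₀ = δ := by ring
      rw [e1] at h2
      exact h2
  have h1 : a ∈ e := (hae e hg.le).1 hg.mem
  refine ⟨h1, le_antisymm ?_ ?_⟩
  · refine hg.min _ le_sup_right ((hae _ le_sup_right).2 ?_)
    exact Ideal.mem_sup_left (Ideal.mem_span_singleton_self a)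
  · refine sup_le ?_ hg.le
    rw [Ideal.span_singleton_le_iff_mem]
    exact h1

lemma mem_of_mul_mem {k e k' : Ideal (𝓞 K)} (hk : k ≠ ⊥) (hek : k = e * k') {a w : 𝓞 K}
    (he : e = Ideal.span {a} ⊔ k) (h : a * w ∈ k) : w ∈ k' := by
  have hk0 : k ≠ 0 := hk
  have he0 : e ≠ 0 := by
    rintro rfl
    rw [zero_mul] at hek
    exact hk0 hek
  have h1 : e * Ideal.span {w} ≤ k := by
    rw [he, Ideal.sup_mul]
    refine sup_le ?_ Ideal.mul_le_left
    rw [Ideal.span_singleton_mul_span_singleton, Ideal.span_singleton_le_iff_mem]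
    exact h
  have h2 : e * k' ∣ e * Ideal.span {w} := by
    rw [Ideal.dvd_iff_le, ← hek]
    exact h1
  rw [mul_dvd_mul_iff_left he0, Ideal.dvd_iff_le, Ideal.span_singleton_le_iff_mem] at h2
  exact h2

omit [NumberField K] in
/-- the coordinate is a unit -/
lemma not_unit_of {k r : Ideal (𝓞 K)} (hr : r ≤ k.radical) {a₀ X : 𝓞 K} (h : X - a₀ ∈ r)
    (ha : IsUnit (Ideal.Quotient.mk k X)) : IsUnit (Ideal.Quotient.mk k a₀) := by
  have h1 : IsNilpotent (Ideal.Quotient.mk k (a₀ - X)) := by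
    apply Pool.Agent.H81.THC.mk_nil
    have h2 : a₀ - X ∈ k.radical := by
      apply hr
      rw [← neg_sub]
      exact r.neg_mem h
    exact h2
  have h2 := Pool.Agent.H29.TC.unit_add_nil ha h1
  rw [← map_add] at h2
  simpa using h2

omit [NumberField K] in
lemma isUnit_of_sup {k : Ideal (𝓞 K)} {u : 𝓞 K} (h : Ideal.span {u} ⊔ k = ⊤) :
    IsUnit (Ideal.Quotient.mk k u) := by
  have h1 : (1 : 𝓞 K) ∈ Ideal.span {u} ⊔ k := by rw [h]; trivial
  obtain ⟨x, hx, v, hv, huv⟩ := Submodule.mem_sup.1 h1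
  obtain ⟨w, hw⟩ := Ideal.mem_span_singleton'.1 hx
  refine IsUnit.of_mul_eq_one (Ideal.Quotient.mk k w) ?_
  rw [← map_mul, ← map_one (Ideal.Quotient.mk k), Ideal.Quotient.mk_eq_mk_iff_sub_mem]
  have e1 : u * w - 1 = -v := by
    rw [mul_comm, hw]; linear_combination huv
  rw [e1]
  exact k.neg_mem hv

end ideals

section zero

variable {K : Type} [Field K] [NumberField K]

lemma one_le_Nf {r : Ideal (𝓞 K)} (hr : r ≠ ⊥) : 1 ≤ Nf K r := by
  unfold Nf
  have h : Ideal.absNorm r ≠ 0 := by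
    rw [Ne, Ideal.absNorm_eq_zero_iff]; exact hr
  exact_mod_cast Nat.one_le_iff_ne_zero.2 h

/-- the zero function has the dual datum -/
lemma fd_zero {k r : Ideal (𝓞 K)} (hk : k ≠ ⊥) (hr : r ≠ ⊥) (L : FI K) :
    FD k r L (fun _ => (0 : ℂ)) := by
  have hd : ∀ (g : K) , dif g (fun _ : K => (0 : ℂ)) = fun _ => 0 := by
    intro g
    funext z
    simp [dif]
  refine ⟨fun x _ => by simp, ?_, ?_⟩
  · intro g₁ _ g₂ _ g₃ _ x _ t _
    rw [hd, hd, hd]
  · intro g₁ _ g₂ _ g₃ _ e₁ e₂ e₃ _ _ _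
    refine ⟨k, hk, ?_, ?_⟩
    · have h1 : Nf K (k ⊔ e₁ * e₂ * e₃) ≤ Nf K k := by
        unfold Nf
        have h2 : Ideal.absNorm (k ⊔ e₁ * e₂ * e₃) ∣ Ideal.absNorm k :=
          Ideal.absNorm_dvd_absNorm_of_le le_sup_left
        have h3 : Ideal.absNorm k ≠ 0 := by
          rw [Ne, Ideal.absNorm_eq_zero_iff]; exact hk
        exact_mod_cast Nat.le_of_dvd (Nat.pos_of_ne_zero h3) h2
      have h4 := one_le_Nf hr
      have h5 := one_le_Nf hk
      nlinarith
    · intro X _ y _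
      rw [hd, hd, hd]
      have h1 : ft K X (fun _ => (0 : ℂ)) y = 0 := by
        simp [ft]
      rw [h1]
      refine ⟨?_, fun h => absurd rfl h⟩
      rw [norm_zero]
      exact mul_nonneg (sq_nonneg _) (Real.sqrt_nonneg _)

end zero

section main

variable {K : Type} [Field K] [NumberField K]

omit [NumberField K] in
/-- the norm of the values -/
lemma norm_cq {k : Ideal (𝓞 K)} {η : 𝓞 K ⧸ k → ℂ} (hη : MC η) {M : FI K} {x₀ : K} (x : K) :
    ‖cq k η M x₀ x‖ ≤ 1 := by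
  unfold cq
  split_ifs with h
  · exact hη.norm_le _
  · simp

omit [NumberField K] in
/-- the inverse of a unit and the reduction -/
lemma inverse_mk {k : Ideal (𝓞 K)} {X Y : 𝓞 K} (h : X * Y - 1 ∈ k) :
    IsUnit (Ideal.Quotient.mk k X) ∧
      Ring.inverse (Ideal.Quotient.mk k X) = Ideal.Quotient.mk k Y := by
  have h1 : Ideal.Quotient.mk k X * Ideal.Quotient.mk k Y = 1 := by
    rw [← map_mul, ← map_one (Ideal.Quotient.mk k), Ideal.Quotient.mk_eq_mk_iff_sub_mem]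
    exact h
  have h2 : IsUnit (Ideal.Quotient.mk k X) := IsUnit.of_mul_eq_one _ h1
  refine ⟨h2, ?_⟩
  calc Ring.inverse (Ideal.Quotient.mk k X) = Ring.inverse (Ideal.Quotient.mk k X) *
        (Ideal.Quotient.mk k X * Ideal.Quotient.mk k Y) := by rw [h1, mul_one]
    _ = Ideal.Quotient.mk k Y := by rw [← mul_assoc, Ring.inverse_mul_cancel _ h2, one_mul]

omit [NumberField K] in
lemma hp_mk {k : Ideal (𝓞 K)} {X Y i a : 𝓞 K} (h : X * Y - 1 ∈ k) :
    Pool.Agent.H31.SX.hp (Ideal.Quotient.mk k i) (Ideal.Quotient.mk k a)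
      (Ideal.Quotient.mk k X) = Ideal.Quotient.mk k (2 * Y + 2 * i * a ^ 2 * Y ^ 3) := by
  unfold Pool.Agent.H31.SX.hp
  rw [(inverse_mk h).2]
  simp only [map_add, map_mul, map_pow, map_ofNat]

/-- the additive character modulo `k'` -/
lemma exists_theta {k e k' κ : Ideal (𝓞 K)} (hk : k ≠ ⊥) (hek : k = e * k') {a : 𝓞 K}
    (he : e = Ideal.span {a} ⊔ k) (haκ : a ∈ κ) {θ : 𝓞 K ⧸ k → ℂ} (hθ : AC θ)
    (hnd : ∀ b ∈ κ.map (Ideal.Quotient.mk k), b ≠ 0 → ∃ s : 𝓞 K ⧸ k, θ (s * b) ≠ 1) :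
    ∃ θ' : 𝓞 K ⧸ k' → ℂ, ND θ' ∧
      ∀ u : 𝓞 K, θ' (Ideal.Quotient.mk k' u) = θ (Ideal.Quotient.mk k (a * u)) := by
  have hae : a ∈ e := by
    rw [he]
    exact Ideal.mem_sup_left (Ideal.mem_span_singleton_self a)
  let lf : 𝓞 K ⧸ k' → 𝓞 K := fun z => (Ideal.Quotient.mk_surjective z).choose
  have hlf : ∀ z, Ideal.Quotient.mk k' (lf z) = z := fun z =>
    (Ideal.Quotient.mk_surjective z).choose_spec
  have hθ' : ∀ u : 𝓞 K, θ (Ideal.Quotient.mk k (a * lf (Ideal.Quotient.mk k' u))) =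
      θ (Ideal.Quotient.mk k (a * u)) := by
    intro u
    congr 1
    rw [Ideal.Quotient.mk_eq_mk_iff_sub_mem, ← mul_sub, hek]
    refine Ideal.mul_mem_mul hae ?_
    rw [← Ideal.Quotient.mk_eq_mk_iff_sub_mem]
    exact hlf _
  refine ⟨fun z => θ (Ideal.Quotient.mk k (a * lf z)), ⟨⟨fun x y => ?_, fun x => hθ.norm _⟩,
    fun w hw => ?_⟩, hθ'⟩
  · obtain ⟨u, rfl⟩ := Ideal.Quotient.mk_surjective x
    obtain ⟨v, rfl⟩ := Ideal.Quotient.mk_surjective y
    rw [← map_add, hθ', hθ', hθ', ← hθ.add, ← map_add, mul_add]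
  · obtain ⟨u, rfl⟩ := Ideal.Quotient.mk_surjective w
    rw [Ideal.Quotient.eq_zero_iff_mem]
    refine mem_of_mul_mem hk hek he ?_
    rw [← Ideal.Quotient.eq_zero_iff_mem]
    by_contra hc
    obtain ⟨s, hs⟩ := hnd _ (Ideal.mem_map_of_mem _ (Ideal.mul_mem_right u _ haκ)) hc
    apply hs
    obtain ⟨s, rfl⟩ := Ideal.Quotient.mk_surjective s
    have h1 := hw (Ideal.Quotient.mk k' s)
    beta_reduce at h1
    rw [← map_mul, hθ'] at h1
    rw [← map_mul]
    rw [show s * (a * u) = a * (s * u) by ring]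
    exact h1

end main

section core

variable {K : Type} [Field K] [NumberField K]

lemma coord {k : Ideal (𝓞 K)} {M : FI K} {x₀ : K} (hx₀ : Gn k M x₀) {j : Ideal (𝓞 K)}
    (hkj : k ≤ j) {x y : K} {a b : 𝓞 K} (hx : x - (a : K) * x₀ ∈ (k : FI K) * M)
    (hy : y - (b : K) * x₀ ∈ (k : FI K) * M) (hxy : x - y ∈ (j : FI K) * M) : a - b ∈ j := by
  rw [← hx₀.iff _ j hkj]
  have h1 := Submodule.sub_mem _ (Submodule.add_mem _ hxy (fi_mono hkj M hy))
    (fi_mono hkj M hx)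
  have e1 : x - y + (y - (b : K) * x₀) - (x - (a : K) * x₀) = ((a - b : 𝓞 K) : K) * x₀ := by
    push_cast; ring
  rw [e1] at h1
  exact h1

theorem core (hRF : X_RF) (hRG : X_RG) (hRH : X_RH) (hGX : X_GX) (hFD : X_FD) (hCF : X_CF)
    {l k : Ideal (𝓞 K)} (hLK : LK l k) {η : 𝓞 K ⧸ k → ℂ} (hη : LC k η) {M : FI K} {x₀ : K}
    (hM : M ≠ 0) (hx₀' : Gn (l * k) M x₀) : CD l k k.radical M (cq k η M x₀) := by
  classical
  have hl := hLK.l_ne
  have hk := hLK.k_ne
  have hlk : l * k ≠ ⊥ := mul_ne_zero hl hk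
  have hx₀ : Gn k M x₀ := (Pool.Agent.H29.THC.pf_CQ K (l * k) (fun _ => 0) M x₀ hlk hM
    hx₀').2.2 k Ideal.mul_le_right
  obtain ⟨q1, q2, q3⟩ := Pool.Agent.H29.THC.pf_CQ K k η M x₀ hk hM hx₀
  generalize hr : k.radical = r
  have hkr : k ≤ r := by rw [← hr]; exact Ideal.le_radical
  have hr0 : r ≠ ⊥ := fun h => hk (le_bot_iff.1 (h ▸ hkr))
  have hfin : Finite (𝓞 K ⧸ k) := Ideal.finiteQuotientOfFreeOfNeBot k hk
  have : Fintype (𝓞 K ⧸ k) := Fintype.ofFinite _
  refine ⟨fun x _ => norm_cq hη.mc x, ?_⟩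
  intro κ hkκ hκr hκ4 ρ hρ δ hδ hδ0
  have hδM : δ ∈ M := fi_le _ M hδ
  obtain ⟨e, hGcd, he1, k', hek⟩ := hGX K k M δ hk hM hδM
  obtain ⟨heκ, hδe⟩ := he1 l κ hLK.cop hkκ hδ
  obtain ⟨a, -, ha⟩ := hx₀.gen δ hδM
  obtain ⟨a₀, -, ha₀⟩ := hx₀.gen ρ hρ
  obtain ⟨hae, he⟩ := sum_eq_of_gcd hx₀ hGcd ha
  have haκ : a ∈ κ := heκ hae
  have har : a ∈ r := hκr haκ
  have hkk' : k ≤ k' := by rw [hek]; exact Ideal.mul_le_right
  have hk'0 : k' ≠ ⊥ := fun h => hk (le_bot_iff.1 (h ▸ hkk'))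
  have hx₀k' : Gn k' M x₀ := q3 k' hkk'
  -- the values
  have hplus : ∀ (X : 𝓞 K) (x : K), x - (X : K) * x₀ ∈ (k : FI K) * M →
      cq k η M x₀ (x + δ) = η (Ideal.Quotient.mk k X + Ideal.Quotient.mk k a) := by
    intro X x hX
    rw [← map_add]
    apply q1
    have h1 := Submodule.add_mem _ hX ha
    have e1 : x - (X : K) * x₀ + (δ - (a : K) * x₀) = x + δ - ((X + a : 𝓞 K) : K) * x₀ := by
      push_cast; ring
    rw [e1] at h1
    exact h1
  have hminus : ∀ (X : 𝓞 K) (x : K), x - (X : K) * x₀ ∈ (k : FI K) * M →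
      cq k η M x₀ (x - δ) = η (Ideal.Quotient.mk k X - Ideal.Quotient.mk k a) := by
    intro X x hX
    rw [← map_sub]
    apply q1
    have h1 := Submodule.sub_mem _ hX ha
    have e1 : x - (X : K) * x₀ - (δ - (a : K) * x₀) = x - δ - ((X - a : 𝓞 K) : K) * x₀ := by
      push_cast; ring
    rw [e1] at h1
    exact h1
  have hlr : (l * r : Ideal (𝓞 K)) ≤ r := Ideal.mul_le_right
  have hci : ∀ x ∈ M, ∀ t ∈ ((l * (r ⊓ k') : Ideal (𝓞 K)) : FI K) * M,
      ci K (l * r) M ρ (x + t) = ci K (l * r) M ρ x := by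
    intro x hx t ht
    have ht' : t ∈ ((l * r : Ideal (𝓞 K)) : FI K) * M :=
      fi_mono (Ideal.mul_mono_right inf_le_left) M ht
    have h1 : x + t - ρ ∈ ((l * r : Ideal (𝓞 K)) : FI K) * M ↔
        x - ρ ∈ ((l * r : Ideal (𝓞 K)) : FI K) * M := by
      have e1 : x + t - ρ = (x - ρ) + t := by ring
      rw [e1]
      constructor
      · intro h
        have h2 := Submodule.sub_mem _ h ht'
        rw [add_sub_cancel_right] at h2
        exact h2
      · intro h
        exact Submodule.add_mem _ h ht'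
    unfold ci
    by_cases h : x - ρ ∈ ((l * r : Ideal (𝓞 K)) : FI K) * M
    · rw [if_pos h, if_pos (h1.2 h)]
    · rw [if_neg h, if_neg fun h2 => h (h1.1 h2)]
  -- coordinates on the residue class of `ρ`
  have hclass : ∀ x ∈ M, x - ρ ∈ ((l * r : Ideal (𝓞 K)) : FI K) * M → ∀ X : 𝓞 K,
      x - (X : K) * x₀ ∈ (k : FI K) * M → X - a₀ ∈ r := by
    intro x hx hxρ X hX
    exact coord hx₀ hkr hX ha₀ (fi_mono hlr M hxρ)
  set Y : FI K := du K (((l * (r ⊓ k') : Ideal (𝓞 K)) : FI K) * M) with hY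
  have hlr0 : l * (r ⊓ k') ≠ ⊥ := by
    refine mul_ne_zero hl ?_
    intro h
    have h1 : k ≤ r ⊓ k' := le_inf hkr hkk'
    rw [h] at h1
    exact hk (le_bot_iff.1 h1)
  by_cases hu : IsUnit (Ideal.Quotient.mk k a₀)
  · -- the coordinate of `ρ` is a unit
    have h210 : IsUnit (Ideal.Quotient.mk k (210 : 𝓞 K)) := isUnit_of_sup hLK.big
    have h2u : IsUnit (Ideal.Quotient.mk k (2 : 𝓞 K)) := by
      rw [show (210 : 𝓞 K) = 105 * 2 by norm_num, map_mul] at h210
      exact isUnit_of_mul_isUnit_right h210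
    have h3u : IsUnit (Ideal.Quotient.mk k (3 : 𝓞 K)) := by
      rw [show (210 : 𝓞 K) = 70 * 3 by norm_num, map_mul] at h210
      exact isUnit_of_mul_isUnit_right h210
    obtain ⟨h', hh'⟩ := h2u.exists_right_inv
    obtain ⟨i', hi'⟩ := h3u.exists_right_inv
    obtain ⟨i, rfl⟩ := Ideal.Quotient.mk_surjective i'
    rw [map_ofNat] at hh' hi'
    have hi3 : (3 : 𝓞 K) * i - 1 ∈ k := by
      rw [← Ideal.Quotient.mk_eq_mk_iff_sub_mem, map_mul, map_ofNat, map_one]
      exact hi'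
    have hJ : (κ.map (Ideal.Quotient.mk k)) ^ 4 = ⊥ := by
      rw [← Ideal.map_pow, Ideal.map_eq_bot_iff_le_ker, Ideal.mk_ker]
      exact hκ4
    obtain ⟨θ, hθ, hlg, hθn⟩ := hRG (𝓞 K ⧸ k) η (κ.map (Ideal.Quotient.mk k)) h'
      (Ideal.Quotient.mk k i) hη.mc hη.prim hJ hh' hi'
    have haJ : Ideal.Quotient.mk k a ∈ κ.map (Ideal.Quotient.mk k) :=
      Ideal.mem_map_of_mem _ haκ
    have hRH' := hRH (𝓞 K ⧸ k) η (κ.map (Ideal.Quotient.mk k)) h' (Ideal.Quotient.mk k i) θ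
      hη.mc hJ hh' hi' hθ hlg (Ideal.Quotient.mk k a) haJ
    obtain ⟨θ', hθ', hθθ'⟩ := exists_theta hk hek he haκ hθ hθn
    have hfin' : Finite (𝓞 K ⧸ k') := Ideal.finiteQuotientOfFreeOfNeBot k' hk'0
    have : Fintype (𝓞 K ⧸ k') := Fintype.ofFinite _
    -- the correlation on the class
    have hval : ∀ x ∈ M, x - ρ ∈ ((l * r : Ideal (𝓞 K)) : FI K) * M → ∀ X : 𝓞 K,
        x - (X : K) * x₀ ∈ (k' : FI K) * M →
        cq k η M x₀ (x + δ) * (starRingEnd ℂ) (cq k η M x₀ (x - δ)) =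
          θ' (Pool.Agent.H31.SX.hp (Ideal.Quotient.mk k' i) (Ideal.Quotient.mk k' a)
            (Ideal.Quotient.mk k' X)) := by
      intro x hx hxρ X hX
      obtain ⟨X', -, hX'⟩ := hx₀.gen x hx
      have h1 : X' - a₀ ∈ r := hclass x hx hxρ X' hX'
      have hX'u : IsUnit (Ideal.Quotient.mk k X') := by
        refine not_unit_of hr.ge (a₀ := X') (X := a₀) ?_ hu
        rw [← neg_sub]
        exact r.neg_mem h1
      have h2 : Ideal.Quotient.mk k' X = Ideal.Quotient.mk k' X' := by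
        rw [Ideal.Quotient.mk_eq_mk_iff_sub_mem]
        refine coord hx₀k' le_rfl hX (fi_mono hkk' M hX') ?_
        rw [sub_self]
        exact Submodule.zero_mem _
      obtain ⟨Z', hZ'⟩ := hX'u.exists_right_inv
      obtain ⟨Z, rfl⟩ := Ideal.Quotient.mk_surjective Z'
      have hXZ : X' * Z - 1 ∈ k := by
        rw [← Ideal.Quotient.mk_eq_mk_iff_sub_mem, map_mul, map_one]
        exact hZ'
      rw [hplus X' x hX', hminus X' x hX', (hRH' _).1 hX'u, h2, hp_mk hXZ, hp_mk (hkk' hXZ),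
        hθθ', map_mul]
    obtain ⟨y₀, hy₀, hft⟩ := hCF K l r k' hl hr0 hk'0 (top_le_iff.1 (hLK.cop ▸
      sup_le_sup_left hkr l)) (top_le_iff.1 (hLK.cop ▸ sup_le_sup_left hkk' l)) θ' hθ' M x₀ ρ
      hM hx₀k' hρ a₀ (fi_mono hkk' M ha₀)
    rw [← hY] at hy₀ hft
    set Wf : 𝓞 K ⧸ k' → ℂ := WW θ' (r.map (Ideal.Quotient.mk k')) (Ideal.Quotient.mk k' i)
      (Ideal.Quotient.mk k' a) (Ideal.Quotient.mk k' a₀) with hWf
    have hYne : Y ≠ 0 := FractionalIdeal.dual_ne_zero ℤ ℚ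
      (mul_ne_zero (FractionalIdeal.coeIdeal_ne_zero.2 hlr0) hM)
    obtain ⟨p1, -, -⟩ := Pool.Agent.H29.THC.pf_CQ K k' Wf Y y₀ hk'0 hYne hy₀
    have hsq : ((Real.sqrt (Nf K k') : ℝ) : ℂ) ≠ 0 := by
      rw [Ne, Complex.ofReal_eq_zero, Real.sqrt_eq_zero']
      have := one_le_Nf hk'0
      linarith
    refine ⟨e, k', fun y => ca K ρ y * cq k' Wf Y y₀ y / ((Real.sqrt (Nf K k') : ℝ) : ℂ), hek,
      heκ, hδe, ?_, ?_, ?_⟩
    · refine hFD K k' r hk'0 hr0 θ' Wf hθ' ?_ Y y₀ ρ hYne hy₀ _ ?_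
      · obtain ⟨N, hN⟩ : ∃ N : ℕ, r ^ N ≤ k' := by
          obtain ⟨N, hN⟩ := Ideal.exists_radical_pow_le_of_fg k (IsNoetherian.noetherian _)
          exact ⟨N, (hr ▸ hN).trans hkk'⟩
        refine hRF (𝓞 K ⧸ k') θ' (r.map (Ideal.Quotient.mk k')) N hθ' ?_ ?_ _ _ _ ?_ ?_ ?_ ?_
        · rw [← Ideal.map_pow, Ideal.map_eq_bot_iff_le_ker, Ideal.mk_ker]
          exact hN
        · have h1 : IsUnit (Ideal.Quotient.mk k' (210 : 𝓞 K)) :=
            isUnit_of_sup (top_le_iff.1 (hLK.big ▸ sup_le_sup_left hkk' _))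
          rwa [map_ofNat] at h1
        · have h1 : Ideal.Quotient.mk k' (3 * i) = 1 := by
            rw [← map_one (Ideal.Quotient.mk k'), Ideal.Quotient.mk_eq_mk_iff_sub_mem]
            exact hkk' hi3
          rwa [map_mul, map_ofNat] at h1
        · exact Ideal.mem_map_of_mem _ har
        · rw [← map_pow, Ideal.Quotient.eq_zero_iff_mem]
          exact hkk' (hκ4 (Ideal.pow_mem_pow haκ 4))
        · have h1 := hu.map (Ideal.Quotient.factor hkk')
          rwa [Ideal.Quotient.factor_mk] at h1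
      · intro b y hb
        beta_reduce
        rw [p1 b y hb]
    · intro x hx t ht
      rw [hci x hx t ht]
      by_cases hxρ : x - ρ ∈ ((l * r : Ideal (𝓞 K)) : FI K) * M
      · congr 1
        obtain ⟨X, -, hX⟩ := hx₀k'.gen x hx
        have htM : t ∈ M := fi_le _ M ht
        have ht1 : t ∈ (k' : FI K) * M := fi_mono (Ideal.mul_le_right.trans inf_le_right) M ht
        have ht2 : t ∈ ((l * r : Ideal (𝓞 K)) : FI K) * M :=
          fi_mono (Ideal.mul_mono_right inf_le_left) M ht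
        rw [hval x hx hxρ X hX]
        refine hval (x + t) (Submodule.add_mem _ hx htM) ?_ X ?_
        · have h1 := Submodule.add_mem _ hxρ ht2
          have e1 : x - ρ + t = x + t - ρ := by ring
          rw [e1] at h1
          exact h1
        · have h1 := Submodule.add_mem _ hX ht1
          have e1 : x - (X : K) * x₀ + t = x + t - (X : K) * x₀ := by ring
          rw [e1] at h1
          exact h1
      · have h0 : ci K (l * r) M ρ x = 0 := by
          unfold ci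
          rw [if_neg hxρ]
        rw [h0, zero_mul, zero_mul]
    · intro X hX y hy
      obtain ⟨b, -, hb⟩ := hy₀.gen y hy
      have h1 := hft (fun z => θ' (Pool.Agent.H31.SX.hp (Ideal.Quotient.mk k' i)
        (Ideal.Quotient.mk k' a) z)) (fun x => ci K (l * r) M ρ x *
          (cq k η M x₀ (x + δ) * (starRingEnd ℂ) (cq k η M x₀ (x - δ)))) ?_ X hX b y hb
      · rw [h1]
        beta_reduce
        rw [p1 b y hb, hWf]
        unfold WW
        rw [mul_div_cancel₀ _ hsq]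
        congr 1
        refine Finset.sum_congr rfl fun τ _ => ?_
        by_cases hτ : τ ∈ r.map (Ideal.Quotient.mk k')
        · rw [if_pos hτ, if_pos hτ, sub_eq_add_neg, hθ'.ac.add]
        · rw [if_neg hτ, if_neg hτ]
      · intro X' x hx hX'
        by_cases hxρ : x - ρ ∈ ((l * r : Ideal (𝓞 K)) : FI K) * M
        · beta_reduce
          rw [hval x hx hxρ X' hX']
        · have h0 : ci K (l * r) M ρ x = 0 := by
            unfold ci
            rw [if_neg hxρ]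
          beta_reduce
          rw [h0, zero_mul, zero_mul]
  · -- the correlation vanishes
    have hzero : ∀ x ∈ M, ci K (l * r) M ρ x *
        (cq k η M x₀ (x + δ) * (starRingEnd ℂ) (cq k η M x₀ (x - δ))) = 0 := by
      intro x hx
      by_cases hxρ : x - ρ ∈ ((l * r : Ideal (𝓞 K)) : FI K) * M
      · obtain ⟨X, -, hX⟩ := hx₀.gen x hx
        have h1 : X - a₀ ∈ r := hclass x hx hxρ X hX
        have h2 : ¬ IsUnit (Ideal.Quotient.mk k X + Ideal.Quotient.mk k a) := by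
          intro h3
          apply hu
          rw [← map_add] at h3
          refine not_unit_of hr.ge (X := X + a) ?_ h3
          have e1 : X + a - a₀ = (X - a₀) + a := by ring
          rw [e1]
          exact r.add_mem h1 har
        rw [hplus X x hX, hη.mc.zero _ h2, zero_mul, mul_zero]
      · have h0 : ci K (l * r) M ρ x = 0 := by
          unfold ci
          rw [if_neg hxρ]
        rw [h0, zero_mul]
    refine ⟨e, k', fun _ => 0, hek, heκ, hδe, fd_zero hk'0 hr0 _, ?_, ?_⟩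
    · intro x hx t ht
      rw [hci x hx t ht, hzero x hx]
      have htM : t ∈ M := fi_le _ M ht
      have h1 := hzero (x + t) (Submodule.add_mem _ hx htM)
      rw [hci x hx t ht] at h1
      exact h1
    · intro X hX y hy
      rw [mul_zero]
      unfold ft
      refine Finset.sum_eq_zero fun x hx => ?_
      beta_reduce
      rw [hzero x (hX.1 x hx), zero_mul]

end core

theorem pf_CD (hRF : X_RF) (hRG : X_RG) (hRH : X_RH) (hGX : X_GX) (hFD : X_FD)
    (hCF : X_CF) : X_CD := by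
  intro K _ _ l k hLK η hη M x₀ hM hx₀
  refine ⟨core hRF hRG hRH hGX hFD hCF hLK hη hM hx₀, ?_⟩
  have h1 : (fun x => (starRingEnd ℂ) (cq k η M x₀ x)) =
      cq k (fun z => (starRingEnd ℂ) (η z)) M x₀ := by
    funext x
    unfold cq
    split_ifs with h
    · rfl
    · simp
  rw [h1]
  refine core hRF hRG hRH hGX hFD hCF hLK ⟨⟨?_, ?_, ?_, ?_⟩, ?_⟩ hM hx₀
  · rw [hη.mc.one, map_one]
  · intro x y
    rw [hη.mc.mul, map_mul]
  · intro x hx
    rw [RCLike.norm_conj, hη.mc.unit x hx]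
  · intro x hx
    rw [hη.mc.zero x hx, map_zero]
  · intro w hw
    obtain ⟨s, hs1, hs2⟩ := hη.prim w hw
    refine ⟨s, hs1, fun h => hs2 ?_⟩
    beta_reduce at h
    rw [← Complex.conj_conj (η (1 + s * w)), h, map_one]

end Pool.Agent.H16.SWX
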